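import Mathlib
import Pool.Agent.N251.GA.Leaves2

/-!
# GA2/Z: the arithmetic data for `ℤ` (helper999)

The exponent for which all powers are idempotent: as in `Pool.Agent.N746.Self.Tools`.
-/

set_option autoImplicit false

namespace Pool.Agent.N999.GA.Z

open Pool.Agent.N251.GA

/-- an idempotent power -/
theorem exists_idem {M : Type*} [Monoid M] [Finite M] (x : M) :
    ∃ k : ℕ, k ≠ 0 ∧ IsIdempotentElem (x ^ k) := by
  obtain ⟨i, j, hij, he⟩ := Finite.exists_ne_map_eq_of_infinite (fun i : ℕ => x ^ (i + 1))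
  wlog h : i < j generalizing i j
  · exact this j i (Ne.symm hij) he.symm (by omega)
  obtain ⟨s, rfl⟩ := Nat.exists_eq_add_of_lt h
  have key : ∀ t l : ℕ, x ^ (i + 1 + t * (s + 1) + l) = x ^ (i + 1 + l) := by
    intro t
    induction t with
    | zero => intro l; simp
    | succ t ih =>
      intro l
      have : i + 1 + (t + 1) * (s + 1) + l = (i + s + 1 + 1) + (t * (s + 1) + l) := by ring
      rw [this, pow_add, ← he, ← pow_add, ← ih l]
      congr 1
      ring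
  refine ⟨(i + 1) * (s + 1), by positivity, ?_⟩
  unfold IsIdempotentElem
  rw [← pow_add]
  have e1 : (i + 1) * (s + 1) + (i + 1) * (s + 1) = i + 1 + (i + 1) * (s + 1) + (i + 1) * s := by
    ring
  have e2 : (i + 1) * (s + 1) = i + 1 + (i + 1) * s := by ring
  rw [e1, key, ← e2]

theorem idem (N : ℕ) (hN : N ≠ 0) :
    ∃ k : ℕ, 1 ≤ k ∧ ∀ x : ℤ, (N : ℤ) ∣ x ^ k * (x ^ k - 1) := by
  haveI : NeZero N := ⟨hN⟩
  choose k hk hk' using fun x : ZMod N => exists_idem x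
  refine ⟨∏ x, k x, Nat.one_le_iff_ne_zero.2 (Finset.prod_ne_zero_iff.2 fun x _ => hk x),
    fun x => ?_⟩
  obtain ⟨l, hl⟩ := Finset.dvd_prod_of_mem k (Finset.mem_univ (x : ZMod N))
  have h1 : IsIdempotentElem ((x : ZMod N) ^ ∏ x, k x) := by
    rw [hl, pow_mul]
    exact (hk' _).pow _
  rw [← ZMod.intCast_zmod_eq_zero_iff_dvd]
  unfold IsIdempotentElem at h1
  push_cast
  linear_combination h1

theorem radZ_eq (x : ℤ) : radZ x = ((∏ p ∈ x.natAbs.primeFactors, p : ℕ) : ℝ) := by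
  unfold radZ
  push_cast
  rfl

theorem prod_pos (n : ℕ) : 1 ≤ ∏ p ∈ n.primeFactors, p :=
  Nat.one_le_iff_ne_zero.2 (Finset.prod_ne_zero_iff.2 fun _ hp =>
    (Nat.prime_of_mem_primeFactors hp).ne_zero)

theorem prod_sub {s t : Finset ℕ} (h : s ⊆ t) (ht : ∀ p ∈ t, 1 ≤ p) :
    ∏ p ∈ s, p ≤ ∏ p ∈ t, p :=
  Finset.prod_le_prod_of_subset_of_one_le' h fun p hp _ => ht p hp

theorem prod_mul {a b : ℕ} (ha : a ≠ 0) (hb : b ≠ 0) :
    ∏ p ∈ (a * b).primeFactors, p ≤ (∏ p ∈ a.primeFactors, p) * ∏ p ∈ b.primeFactors, p := by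
  classical
  rw [Nat.primeFactors_mul ha hb, ← Finset.prod_union_inter]
  refine Nat.le_mul_of_pos_right _ ?_
  exact Nat.pos_of_ne_zero (Finset.prod_ne_zero_iff.2 fun p hp =>
    (Nat.prime_of_mem_primeFactors (Finset.mem_inter.1 hp).1).ne_zero)

theorem norm_eq (x : ℤ) : ‖(x : ℂ)‖ = (x.natAbs : ℝ) := by
  rw [Complex.norm_intCast, Nat.cast_natAbs, Int.cast_abs]

/-- **GA2/Z** -/
theorem t : LeafZ := by
  refine ⟨?_, ?_, ?_, ?_, ?_, idem⟩
  · intro x hx
    rw [norm_eq]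
    exact_mod_cast Nat.one_le_iff_ne_zero.2 (Int.natAbs_ne_zero.2 hx)
  · intro x
    rw [radZ_eq]
    exact_mod_cast prod_pos _
  · intro x hx
    rw [radZ_eq, norm_eq]
    exact_mod_cast Nat.le_of_dvd (Int.natAbs_pos.2 hx) (Nat.prod_primeFactors_dvd _)
  · intro x y hx hy
    rw [radZ_eq, radZ_eq, radZ_eq, Int.natAbs_mul]
    exact_mod_cast prod_mul (Int.natAbs_ne_zero.2 hx) (Int.natAbs_ne_zero.2 hy)
  · intro x y k hy h
    rw [radZ_eq, radZ_eq]
    have h1 : x.natAbs ∣ y.natAbs ^ k := by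
      rw [← Int.natAbs_pow]
      exact Int.natAbs_dvd_natAbs.2 h
    have h2 : x.natAbs.primeFactors ⊆ y.natAbs.primeFactors := by
      intro p hp
      have hp1 := Nat.prime_of_mem_primeFactors hp
      have hp2 := Nat.dvd_of_mem_primeFactors hp
      exact Nat.mem_primeFactors.2 ⟨hp1, hp1.dvd_of_dvd_pow (hp2.trans h1),
        Int.natAbs_ne_zero.2 hy⟩
    exact_mod_cast prod_sub h2 fun p hp => (Nat.prime_of_mem_primeFactors hp).one_le

end Pool.Agent.N999.GA.Z
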